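import Pool.Agent.R745.CDN.Defs

/-!
Constant distance code pairs: the final contradiction for `Q = 8`.
-/

set_option autoImplicit false

namespace R745CD

open Finset H825CD

theorem f8_pos {a k z : ℝ} (ha : 0 < a) (hk : 0 ≤ k) (h : a ≤ k * z) : 0 < z := by
  by_contra hc
  push Not at hc
  nlinarith [mul_nonneg hk (neg_nonneg.2 hc)]

theorem f8_it {m z w c U U' : ℝ} (hm : 20 * m ≤ 1) (_hm0 : 0 < m) (hz : 0 ≤ z) (hc : 0 ≤ c)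
    (h : z * (1 - c * w) ≤ m) (hw : w ≤ U * m) (hU : 0 ≤ U) (hU0 : 0 ≤ U')
    (hU' : 1 ≤ U' * (1 - c * U / 20)) : z ≤ U' * m := by
  have h0 : c * w ≤ c * (U * m) := mul_le_mul_of_nonneg_left hw hc
  have h2 : c * U * (20 * m) ≤ c * U * 1 := mul_le_mul_of_nonneg_left hm (by positivity)
  have h1 : c * w ≤ c * U / 20 := by linarith
  have h4 : z * (1 - c * U / 20) ≤ z * (1 - c * w) :=
    mul_le_mul_of_nonneg_left (by linarith) hz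
  have h3 : z * (1 - c * U / 20) ≤ m := h4.trans h
  calc z = z * 1 := (mul_one z).symm
    _ ≤ z * (U' * (1 - c * U / 20)) := mul_le_mul_of_nonneg_left hU' hz
    _ = U' * (z * (1 - c * U / 20)) := by ring
    _ ≤ U' * m := mul_le_mul_of_nonneg_left h3 hU0

theorem f8_aff {f : ℝ → ℝ} (a b : ℝ) (hf : ∀ t, f t = a + b * t) {lo hi t : ℝ} (h1 : 0 < f lo)
    (h2 : 0 < f hi) (hlo : lo ≤ t) (hhi : t ≤ hi) : 0 < f t := by
  rw [hf] at h1 h2 ⊢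
  rcases le_total 0 b with hb | hb
  · linarith [mul_le_mul_of_nonneg_left hlo hb]
  · linarith [mul_le_mul_of_nonpos_left hhi hb]

/-- The multi-affine function of the last step. -/
noncomputable def f8H (k l K L s Z W X Y : ℝ) : ℝ :=
  l * Z + k * W + L * X + K * Y - (1 / 20) * ((k ^ 2 + k * l + l ^ 2) * (Z * W) +
    (8 * k + l * L) * (Z * Y) + (8 * l + k * K) * (X * W) +
    (K ^ 2 + K * L + L ^ 2) * (X * Y)) - s / 20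

theorem f8_box {k l K L s cz cw dz dw : ℝ}
    (h : ∀ Z W X Y : ℝ, (Z = 1 ∨ Z = cz) → (W = 1 ∨ W = cw) → (X = 0 ∨ X = dz) →
      (Y = 0 ∨ Y = dw) → 0 < f8H k l K L s Z W X Y) {Z W X Y : ℝ}
    (hZ1 : 1 ≤ Z) (hZ2 : Z ≤ cz) (hW1 : 1 ≤ W) (hW2 : W ≤ cw) (hX1 : 0 ≤ X) (hX2 : X ≤ dz)
    (hY1 : 0 ≤ Y) (hY2 : Y ≤ dw) : 0 < f8H k l K L s Z W X Y := by
  have hY : ∀ Z W X : ℝ, (Z = 1 ∨ Z = cz) → (W = 1 ∨ W = cw) → (X = 0 ∨ X = dz) →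
      0 < f8H k l K L s Z W X Y := by
    intro Z W X hZ hW hX
    exact f8_aff (f := fun t => f8H k l K L s Z W X t) (f8H k l K L s Z W X 0)
      (K - (1 / 20) * ((8 * k + l * L) * Z + (K ^ 2 + K * L + L ^ 2) * X))
      (by intro t; unfold f8H; ring) (h Z W X 0 hZ hW hX (Or.inl rfl))
      (h Z W X dw hZ hW hX (Or.inr rfl)) hY1 hY2
  have hX : ∀ Z W : ℝ, (Z = 1 ∨ Z = cz) → (W = 1 ∨ W = cw) →
      0 < f8H k l K L s Z W X Y := by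
    intro Z W hZ hW
    exact f8_aff (f := fun t => f8H k l K L s Z W t Y) (f8H k l K L s Z W 0 Y)
      (L - (1 / 20) * ((8 * l + k * K) * W + (K ^ 2 + K * L + L ^ 2) * Y))
      (by intro t; unfold f8H; ring) (hY Z W 0 hZ hW (Or.inl rfl))
      (hY Z W dz hZ hW (Or.inr rfl)) hX1 hX2
  have hW : ∀ Z : ℝ, (Z = 1 ∨ Z = cz) → 0 < f8H k l K L s Z W X Y := by
    intro Z hZ
    exact f8_aff (f := fun t => f8H k l K L s Z t X Y) (f8H k l K L s Z 0 X Y)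
      (k - (1 / 20) * ((k ^ 2 + k * l + l ^ 2) * Z + (8 * l + k * K) * X))
      (by intro t; unfold f8H; ring) (hX Z 1 hZ (Or.inl rfl))
      (hX Z cw hZ (Or.inr rfl)) hW1 hW2
  exact f8_aff (f := fun t => f8H k l K L s t W X Y) (f8H k l K L s 0 W X Y)
      (l - (1 / 20) * ((k ^ 2 + k * l + l ^ 2) * W + (8 * k + l * L) * Y))
      (by intro t; unfold f8H; ring) (hW 1 (Or.inl rfl)) (hW cz (Or.inr rfl)) hZ1 hZ2

theorem f8_core {m l L cz cw dz dw s : ℝ} {z w x y p r Z10 Z11 W10 W11 : ℝ}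
    (hm0 : 0 < m) (hm : 20 * m ≤ 1) (hl : 0 ≤ l) (hl8 : l ≤ 8) (hL : 0 ≤ L) (hL8 : L ≤ 8)
    (hz1 : m < z) (hw1 : m < w) (hx1 : 0 ≤ x) (hy1 : 0 ≤ y)
    (hp : 0 ≤ p) (hr : 0 ≤ r) (hZ11 : 0 ≤ Z11) (hW11 : 0 ≤ W11)
    (hV1 : p * (r + 16 * (W10 + y) + 64 * W11) ≤ 1)
    (hV2 : r * (p + 16 * (Z10 + x) + 64 * Z11) ≤ 1)
    (hzK : z ≤ Z10 + (8 - L) * Z11) (hwL : w ≤ W10 + L * W11)
    (hp0 : 1 - (8 - l) * z - (8 - L) * x ≤ p) (hr0 : 1 - l * w - L * y ≤ r)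
    (hS1 : 20 * (p * W11) ≤ m) (hS2 : 20 * (r * Z11) ≤ m)
    (hz2 : z ≤ cz * m) (hw2 : w ≤ cw * m) (hx2 : x ≤ dz * m) (hy2 : y ≤ dw * m)
    (hs1 : 8 * L - 32 ≤ s) (hs2 : 32 - 8 * L ≤ s)
    (hbox : ∀ Z W X Y : ℝ, (Z = 1 ∨ Z = cz) → (W = 1 ∨ W = cw) → (X = 0 ∨ X = dz) →
      (Y = 0 ∨ Y = dw) → 0 < f8H (8 - l) l (8 - L) L s Z W X Y) : False := by
  have hA : p * r + 16 * (p * (w + y)) + (64 - 16 * L) * (p * W11) ≤ 1 := by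
    have h1 := mul_le_mul_of_nonneg_left hwL hp
    linarith
  have hB : p * r + 16 * (r * (z + x)) + (16 * L - 64) * (r * Z11) ≤ 1 := by
    have h1 := mul_le_mul_of_nonneg_left hzK hr
    linarith
  have hpW : 0 ≤ p * W11 := mul_nonneg hp hW11
  have hrZ : 0 ≤ r * Z11 := mul_nonneg hr hZ11
  have hC : p * r + 8 * (p * (w + y)) + 8 * (r * (z + x)) ≤ 1 + s * m / 20 := by
    rcases le_total 0 (8 * L - 32) with h | h
    · have h1 : (8 * L - 32) * (20 * (p * W11)) ≤ (8 * L - 32) * m :=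
        mul_le_mul_of_nonneg_left hS1 h
      have h2 : 0 ≤ (8 * L - 32) * (r * Z11) := mul_nonneg h hrZ
      have h3 : (8 * L - 32) * m ≤ s * m := mul_le_mul_of_nonneg_right hs1 hm0.le
      linarith
    · have h' : 0 ≤ 32 - 8 * L := by linarith
      have h1 : (32 - 8 * L) * (20 * (r * Z11)) ≤ (32 - 8 * L) * m :=
        mul_le_mul_of_nonneg_left hS2 h'
      have h2 : 0 ≤ (32 - 8 * L) * (p * W11) := mul_nonneg h' hpW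
      have h3 : (32 - 8 * L) * m ≤ s * m := mul_le_mul_of_nonneg_right hs2 hm0.le
      linarith
  have hz0 : 0 ≤ z := hm0.le.trans hz1.le
  have hw0 : 0 ≤ w := hm0.le.trans hw1.le
  have hD : (1 - (8 - l) * z - (8 - L) * x) * (1 - l * w - L * y) +
      8 * ((1 - (8 - l) * z - (8 - L) * x) * (w + y)) + 8 * ((1 - l * w - L * y) * (z + x)) ≤
      p * r + 8 * (p * (w + y)) + 8 * (r * (z + x)) := by
    have h1 : 0 ≤ r + 8 * (w + y) := by positivity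
    have h2 := mul_le_mul_of_nonneg_right hp0 h1
    have h3 : 0 ≤ 1 - (8 - l) * z - (8 - L) * x + 8 * (z + x) := by
      have h4 : 0 ≤ l * z := mul_nonneg hl hz0
      have h5 : 0 ≤ L * x := mul_nonneg hL hx1
      linarith
    have h6 := mul_le_mul_of_nonneg_right hr0 h3
    linarith
  have hex : ∀ t : ℝ, ∃ T : ℝ, t = T * m := fun t => ⟨t / m, by field_simp⟩
  obtain ⟨Z, rfl⟩ := hex z
  obtain ⟨W, rfl⟩ := hex w
  obtain ⟨X, rfl⟩ := hex x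
  obtain ⟨Y, rfl⟩ := hex y
  have hZ1 : 1 ≤ Z := le_of_mul_le_mul_right (by linarith : 1 * m ≤ Z * m) hm0
  have hW1 : 1 ≤ W := le_of_mul_le_mul_right (by linarith : 1 * m ≤ W * m) hm0
  have hX1 : 0 ≤ X := le_of_mul_le_mul_right (by linarith : 0 * m ≤ X * m) hm0
  have hY1 : 0 ≤ Y := le_of_mul_le_mul_right (by linarith : 0 * m ≤ Y * m) hm0
  have hH := f8_box hbox hZ1 (le_of_mul_le_mul_right hz2 hm0) hW1 (le_of_mul_le_mul_right hw2 hm0)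
    hX1 (le_of_mul_le_mul_right hx2 hm0) hY1 (le_of_mul_le_mul_right hy2 hm0)
  have hZ0 : 0 ≤ Z := by linarith
  have hW0 : 0 ≤ W := by linarith
  have hk0 : 0 ≤ 8 - l := by linarith
  have hK0 : 0 ≤ 8 - L := by linarith
  have hB0 : 0 ≤ ((8 - l) ^ 2 + (8 - l) * l + l ^ 2) * (Z * W) +
    (8 * (8 - l) + l * L) * (Z * Y) + (8 * l + (8 - l) * (8 - L)) * (X * W) +
    ((8 - L) ^ 2 + (8 - L) * L + L ^ 2) * (X * Y) := by positivity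
  have hmm : 0 ≤ m / 20 - m ^ 2 := by
    have h := mul_nonneg hm0.le (by linarith : 0 ≤ 1 / 20 - m)
    linarith
  have hprod := mul_nonneg hmm hB0
  have hmH := mul_pos hm0 hH
  unfold f8H at hmH
  linarith [hprod, hmH, hC, hD]

theorem f8_v2 {L dz dw s : ℝ} (h : (L = 1 ∧ dz = (139 / 125) ∧ dw = (819 / 500) ∧ s = 24) ∨
    (L = 2 ∧ dz = (5 / 4) ∧ dw = (8 / 5) ∧ s = 16) ∨
    (L = 3 ∧ dz = (1429 / 1000) ∧ dw = (389 / 250) ∧ s = 8) ∨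
    (L = 4 ∧ dz = (1667 / 1000) ∧ dw = (1501 / 1000) ∧ s = 0) ∨
    (L = 5 ∧ dz = 2 ∧ dw = (1429 / 1000) ∧ s = 8) ∨
    (L = 6 ∧ dz = 2 ∧ dw = (5 / 4) ∧ s = 16) ∨
    (L = 7 ∧ dz = 2 ∧ dw = (139 / 125) ∧ s = 24)) :
    ∀ Z W X Y : ℝ, (Z = 1 ∨ Z = (139 / 125)) → (W = 1 ∨ W = (693 / 500)) → (X = 0 ∨ X = dz) →
      (Y = 0 ∨ Y = dw) → 0 < f8H (8 - 2) 2 (8 - L) L s Z W X Y := by
  unfold f8H
  rcases h with ⟨rfl, rfl, rfl, rfl⟩ | ⟨rfl, rfl, rfl, rfl⟩ | ⟨rfl, rfl, rfl, rfl⟩ |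
    ⟨rfl, rfl, rfl, rfl⟩ | ⟨rfl, rfl, rfl, rfl⟩ | ⟨rfl, rfl, rfl, rfl⟩ | ⟨rfl, rfl, rfl, rfl⟩ <;>
  rintro _ _ _ _ (rfl | rfl) (rfl | rfl) (rfl | rfl) (rfl | rfl) <;> norm_num

theorem f8_v3 {L dz dw s : ℝ} (h : (L = 1 ∧ dz = (139 / 125) ∧ dw = (819 / 500) ∧ s = 24) ∨
    (L = 2 ∧ dz = (5 / 4) ∧ dw = (8 / 5) ∧ s = 16) ∨
    (L = 3 ∧ dz = (1429 / 1000) ∧ dw = (389 / 250) ∧ s = 8) ∨
    (L = 4 ∧ dz = (1667 / 1000) ∧ dw = (1501 / 1000) ∧ s = 0) ∨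
    (L = 5 ∧ dz = 2 ∧ dw = (1429 / 1000) ∧ s = 8) ∨
    (L = 6 ∧ dz = 2 ∧ dw = (5 / 4) ∧ s = 16) ∨
    (L = 7 ∧ dz = 2 ∧ dw = (139 / 125) ∧ s = 24)) :
    ∀ Z W X Y : ℝ, (Z = 1 ∨ Z = (5 / 4)) → (W = 1 ∨ W = (667 / 500)) → (X = 0 ∨ X = dz) →
      (Y = 0 ∨ Y = dw) → 0 < f8H (8 - 3) 3 (8 - L) L s Z W X Y := by
  unfold f8H
  rcases h with ⟨rfl, rfl, rfl, rfl⟩ | ⟨rfl, rfl, rfl, rfl⟩ | ⟨rfl, rfl, rfl, rfl⟩ |
    ⟨rfl, rfl, rfl, rfl⟩ | ⟨rfl, rfl, rfl, rfl⟩ | ⟨rfl, rfl, rfl, rfl⟩ | ⟨rfl, rfl, rfl, rfl⟩ <;>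
  rintro _ _ _ _ (rfl | rfl) (rfl | rfl) (rfl | rfl) (rfl | rfl) <;> norm_num

theorem f8_v4 {L dz dw s : ℝ} (h : (L = 1 ∧ dz = (139 / 125) ∧ dw = (819 / 500) ∧ s = 24) ∨
    (L = 2 ∧ dz = (5 / 4) ∧ dw = (8 / 5) ∧ s = 16) ∨
    (L = 3 ∧ dz = (1429 / 1000) ∧ dw = (389 / 250) ∧ s = 8) ∨
    (L = 4 ∧ dz = (1667 / 1000) ∧ dw = (1501 / 1000) ∧ s = 0) ∨
    (L = 5 ∧ dz = 2 ∧ dw = (1429 / 1000) ∧ s = 8) ∨
    (L = 6 ∧ dz = 2 ∧ dw = (5 / 4) ∧ s = 16) ∨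
    (L = 7 ∧ dz = 2 ∧ dw = (139 / 125) ∧ s = 24)) :
    ∀ Z W X Y : ℝ, (Z = 1 ∨ Z = (1429 / 1000)) → (W = 1 ∨ W = (1273 / 1000)) → (X = 0 ∨ X = dz) →
      (Y = 0 ∨ Y = dw) → 0 < f8H (8 - 4) 4 (8 - L) L s Z W X Y := by
  unfold f8H
  rcases h with ⟨rfl, rfl, rfl, rfl⟩ | ⟨rfl, rfl, rfl, rfl⟩ | ⟨rfl, rfl, rfl, rfl⟩ |
    ⟨rfl, rfl, rfl, rfl⟩ | ⟨rfl, rfl, rfl, rfl⟩ | ⟨rfl, rfl, rfl, rfl⟩ | ⟨rfl, rfl, rfl, rfl⟩ <;>
  rintro _ _ _ _ (rfl | rfl) (rfl | rfl) (rfl | rfl) (rfl | rfl) <;> norm_num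

theorem f8_v5 {L dz dw s : ℝ} (h : (L = 1 ∧ dz = (139 / 125) ∧ dw = (819 / 500) ∧ s = 24) ∨
    (L = 2 ∧ dz = (5 / 4) ∧ dw = (8 / 5) ∧ s = 16) ∨
    (L = 3 ∧ dz = (1429 / 1000) ∧ dw = (389 / 250) ∧ s = 8) ∨
    (L = 4 ∧ dz = (1667 / 1000) ∧ dw = (1501 / 1000) ∧ s = 0) ∨
    (L = 5 ∧ dz = 2 ∧ dw = (1429 / 1000) ∧ s = 8) ∨
    (L = 6 ∧ dz = 2 ∧ dw = (5 / 4) ∧ s = 16) ∨
    (L = 7 ∧ dz = 2 ∧ dw = (139 / 125) ∧ s = 24)) :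
    ∀ Z W X Y : ℝ, (Z = 1 ∨ Z = (1667 / 1000)) → (W = 1 ∨ W = (1201 / 1000)) → (X = 0 ∨ X = dz) →
      (Y = 0 ∨ Y = dw) → 0 < f8H (8 - 5) 5 (8 - L) L s Z W X Y := by
  unfold f8H
  rcases h with ⟨rfl, rfl, rfl, rfl⟩ | ⟨rfl, rfl, rfl, rfl⟩ | ⟨rfl, rfl, rfl, rfl⟩ |
    ⟨rfl, rfl, rfl, rfl⟩ | ⟨rfl, rfl, rfl, rfl⟩ | ⟨rfl, rfl, rfl, rfl⟩ | ⟨rfl, rfl, rfl, rfl⟩ <;>
  rintro _ _ _ _ (rfl | rfl) (rfl | rfl) (rfl | rfl) (rfl | rfl) <;> norm_num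

theorem f8_v6 {L dz dw s : ℝ} (h : (L = 1 ∧ dz = (139 / 125) ∧ dw = (819 / 500) ∧ s = 24) ∨
    (L = 2 ∧ dz = (5 / 4) ∧ dw = (8 / 5) ∧ s = 16) ∨
    (L = 3 ∧ dz = (1429 / 1000) ∧ dw = (389 / 250) ∧ s = 8) ∨
    (L = 4 ∧ dz = (1667 / 1000) ∧ dw = (1501 / 1000) ∧ s = 0) ∨
    (L = 5 ∧ dz = 2 ∧ dw = (1429 / 1000) ∧ s = 8) ∨
    (L = 6 ∧ dz = 2 ∧ dw = (5 / 4) ∧ s = 16) ∨
    (L = 7 ∧ dz = 2 ∧ dw = (139 / 125) ∧ s = 24)) :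
    ∀ Z W X Y : ℝ, (Z = 1 ∨ Z = 2) → (W = 1 ∨ W = (139 / 125)) → (X = 0 ∨ X = dz) →
      (Y = 0 ∨ Y = dw) → 0 < f8H (8 - 6) 6 (8 - L) L s Z W X Y := by
  unfold f8H
  rcases h with ⟨rfl, rfl, rfl, rfl⟩ | ⟨rfl, rfl, rfl, rfl⟩ | ⟨rfl, rfl, rfl, rfl⟩ |
    ⟨rfl, rfl, rfl, rfl⟩ | ⟨rfl, rfl, rfl, rfl⟩ | ⟨rfl, rfl, rfl, rfl⟩ | ⟨rfl, rfl, rfl, rfl⟩ <;>
  rintro _ _ _ _ (rfl | rfl) (rfl | rfl) (rfl | rfl) (rfl | rfl) <;> norm_num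

theorem f8_all {m l L : ℝ} {z w x y zi wi p r Z10 Z11 W10 W11 : ℝ}
    (hm0 : 0 < m) (hm : 20 * m ≤ 1)
    (hl : l = 1 ∨ l = 2 ∨ l = 3 ∨ l = 4 ∨ l = 5 ∨ l = 6 ∨ l = 7)
    (hL : L = 1 ∨ L = 2 ∨ L = 3 ∨ L = 4 ∨ L = 5 ∨ L = 6 ∨ L = 7)
    (hz1 : m < z) (hw1 : m < w) (hx1 : 0 ≤ x) (hy1 : 0 ≤ y) (hzi : 0 ≤ zi) (hwi : 0 ≤ wi)
    (hp : 0 ≤ p) (hr : 0 ≤ r) (hZ11 : 0 ≤ Z11) (hW11 : 0 ≤ W11)
    (hV1 : p * (r + 16 * (W10 + y) + 64 * W11) ≤ 1)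
    (hV2 : r * (p + 16 * (Z10 + x) + 64 * Z11) ≤ 1)
    (hzK : z ≤ Z10 + (8 - L) * Z11) (hwL : w ≤ W10 + L * W11)
    (hp0 : 1 - (8 - l) * z - (8 - L) * x ≤ p) (hr0 : 1 - l * w - L * y ≤ r)
    (hS1 : 20 * (p * W11) ≤ m) (hS2 : 20 * (r * Z11) ≤ m)
    (hz2 : z ≤ 2 * m) (hw2 : w ≤ 2 * m) (hzi2 : zi ≤ 2 * m) (hwi2 : wi ≤ 2 * m)
    (hxz : x ≤ zi) (hyw : y ≤ wi)
    (hJ1 : z * (1 - (l - 1) * w) ≤ m) (hJ2 : w * (1 - (7 - l) * z) ≤ m)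
    (hI1 : zi * (1 - L * wi) ≤ m) (hI2 : wi * (1 - (8 - L) * zi) ≤ m) : False := by
  have hz0 : 0 ≤ z := hm0.le.trans hz1.le
  have hw0 : 0 ≤ w := hm0.le.trans hw1.le
  have hI : ∃ dz dw s : ℝ, zi ≤ dz * m ∧ wi ≤ dw * m ∧ 8 * L - 32 ≤ s ∧ 32 - 8 * L ≤ s ∧
      ((L = 1 ∧ dz = (139 / 125) ∧ dw = (819 / 500) ∧ s = 24) ∨
        (L = 2 ∧ dz = (5 / 4) ∧ dw = (8 / 5) ∧ s = 16) ∨
        (L = 3 ∧ dz = (1429 / 1000) ∧ dw = (389 / 250) ∧ s = 8) ∨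
        (L = 4 ∧ dz = (1667 / 1000) ∧ dw = (1501 / 1000) ∧ s = 0) ∨
        (L = 5 ∧ dz = 2 ∧ dw = (1429 / 1000) ∧ s = 8) ∨
        (L = 6 ∧ dz = 2 ∧ dw = (5 / 4) ∧ s = 16) ∨
        (L = 7 ∧ dz = 2 ∧ dw = (139 / 125) ∧ s = 24)) := by
    rcases hL with rfl | rfl | rfl | rfl | rfl | rfl | rfl
    · have h1 : zi ≤ (139 / 125) * m := f8_it (U := 2) hm hm0 hzi (by norm_num) hI1 hwi2 (by norm_num) (by norm_num) (by norm_num)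
      have h2 : wi ≤ (819 / 500) * m :=
        f8_it (U := (139 / 125)) hm hm0 hwi (by norm_num) hI2 h1 (by norm_num) (by norm_num) (by norm_num)
      exact ⟨_, _, 24, h1, h2, by norm_num, by norm_num, Or.inl ⟨rfl, rfl, rfl, rfl⟩⟩
    · have h1 : zi ≤ (5 / 4) * m := f8_it (U := 2) hm hm0 hzi (by norm_num) hI1 hwi2 (by norm_num) (by norm_num) (by norm_num)
      have h2 : wi ≤ (8 / 5) * m :=
        f8_it (U := (5 / 4)) hm hm0 hwi (by norm_num) hI2 h1 (by norm_num) (by norm_num) (by norm_num)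
      exact ⟨_, _, 16, h1, h2, by norm_num, by norm_num, Or.inr (Or.inl ⟨rfl, rfl, rfl, rfl⟩)⟩
    · have h1 : zi ≤ (1429 / 1000) * m := f8_it (U := 2) hm hm0 hzi (by norm_num) hI1 hwi2 (by norm_num) (by norm_num) (by norm_num)
      have h2 : wi ≤ (389 / 250) * m :=
        f8_it (U := (1429 / 1000)) hm hm0 hwi (by norm_num) hI2 h1 (by norm_num) (by norm_num) (by norm_num)
      exact ⟨_, _, 8, h1, h2, by norm_num, by norm_num, Or.inr (Or.inr (Or.inl ⟨rfl, rfl, rfl, rfl⟩))⟩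
    · have h1 : zi ≤ (1667 / 1000) * m := f8_it (U := 2) hm hm0 hzi (by norm_num) hI1 hwi2 (by norm_num) (by norm_num) (by norm_num)
      have h2 : wi ≤ (1501 / 1000) * m :=
        f8_it (U := (1667 / 1000)) hm hm0 hwi (by norm_num) hI2 h1 (by norm_num) (by norm_num) (by norm_num)
      exact ⟨_, _, 0, h1, h2, by norm_num, by norm_num, Or.inr (Or.inr (Or.inr (Or.inl ⟨rfl, rfl, rfl, rfl⟩)))⟩
    · have h1 : zi ≤ 2 * m := f8_it (U := 2) hm hm0 hzi (by norm_num) hI1 hwi2 (by norm_num) (by norm_num) (by norm_num)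
      have h2 : wi ≤ (1429 / 1000) * m :=
        f8_it (U := 2) hm hm0 hwi (by norm_num) hI2 h1 (by norm_num) (by norm_num) (by norm_num)
      exact ⟨_, _, 8, h1, h2, by norm_num, by norm_num, Or.inr (Or.inr (Or.inr (Or.inr (Or.inl ⟨rfl, rfl, rfl, rfl⟩))))⟩
    · have h1 : zi ≤ 2 * m := hzi2
      have h2 : wi ≤ (5 / 4) * m :=
        f8_it (U := 2) hm hm0 hwi (by norm_num) hI2 h1 (by norm_num) (by norm_num) (by norm_num)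
      exact ⟨_, _, 16, h1, h2, by norm_num, by norm_num, Or.inr (Or.inr (Or.inr (Or.inr (Or.inr (Or.inl ⟨rfl, rfl, rfl, rfl⟩)))))⟩
    · have h1 : zi ≤ 2 * m := hzi2
      have h2 : wi ≤ (139 / 125) * m :=
        f8_it (U := 2) hm hm0 hwi (by norm_num) hI2 h1 (by norm_num) (by norm_num) (by norm_num)
      exact ⟨_, _, 24, h1, h2, by norm_num, by norm_num, Or.inr (Or.inr (Or.inr (Or.inr (Or.inr (Or.inr (⟨rfl, rfl, rfl, rfl⟩))))))⟩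
  obtain ⟨dz, dw, s, hdz, hdw, hs1, hs2, hcase⟩ := hI
  have hx2 := hxz.trans hdz
  have hy2 := hyw.trans hdw
  rcases hl with rfl | rfl | rfl | rfl | rfl | rfl | rfl
  · norm_num at hJ1
    linarith
  · have h1 : z ≤ (139 / 125) * m :=
      f8_it (U := 2) hm hm0 hz0 (by norm_num) hJ1 hw2 (by norm_num) (by norm_num) (by norm_num)
    have h2 : w ≤ (693 / 500) * m :=
      f8_it (U := (139 / 125)) hm hm0 hw0 (by norm_num) hJ2 h1 (by norm_num) (by norm_num) (by norm_num)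
    refine f8_core hm0 hm (by norm_num) (by norm_num)
      (by rcases hL with rfl | rfl | rfl | rfl | rfl | rfl | rfl <;> norm_num)
      (by rcases hL with rfl | rfl | rfl | rfl | rfl | rfl | rfl <;> norm_num)
      hz1 hw1 hx1 hy1 hp hr hZ11 hW11 hV1 hV2 hzK hwL hp0 hr0 hS1 hS2 h1 h2 hx2 hy2 hs1 hs2 ?_
    exact f8_v2 hcase
  · have h1 : z ≤ (5 / 4) * m :=
      f8_it (U := 2) hm hm0 hz0 (by norm_num) hJ1 hw2 (by norm_num) (by norm_num) (by norm_num)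
    have h2 : w ≤ (667 / 500) * m :=
      f8_it (U := (5 / 4)) hm hm0 hw0 (by norm_num) hJ2 h1 (by norm_num) (by norm_num) (by norm_num)
    refine f8_core hm0 hm (by norm_num) (by norm_num)
      (by rcases hL with rfl | rfl | rfl | rfl | rfl | rfl | rfl <;> norm_num)
      (by rcases hL with rfl | rfl | rfl | rfl | rfl | rfl | rfl <;> norm_num)
      hz1 hw1 hx1 hy1 hp hr hZ11 hW11 hV1 hV2 hzK hwL hp0 hr0 hS1 hS2 h1 h2 hx2 hy2 hs1 hs2 ?_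
    exact f8_v3 hcase
  · have h1 : z ≤ (1429 / 1000) * m :=
      f8_it (U := 2) hm hm0 hz0 (by norm_num) hJ1 hw2 (by norm_num) (by norm_num) (by norm_num)
    have h2 : w ≤ (1273 / 1000) * m :=
      f8_it (U := (1429 / 1000)) hm hm0 hw0 (by norm_num) hJ2 h1 (by norm_num) (by norm_num) (by norm_num)
    refine f8_core hm0 hm (by norm_num) (by norm_num)
      (by rcases hL with rfl | rfl | rfl | rfl | rfl | rfl | rfl <;> norm_num)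
      (by rcases hL with rfl | rfl | rfl | rfl | rfl | rfl | rfl <;> norm_num)
      hz1 hw1 hx1 hy1 hp hr hZ11 hW11 hV1 hV2 hzK hwL hp0 hr0 hS1 hS2 h1 h2 hx2 hy2 hs1 hs2 ?_
    exact f8_v4 hcase
  · have h1 : z ≤ (1667 / 1000) * m :=
      f8_it (U := 2) hm hm0 hz0 (by norm_num) hJ1 hw2 (by norm_num) (by norm_num) (by norm_num)
    have h2 : w ≤ (1201 / 1000) * m :=
      f8_it (U := (1667 / 1000)) hm hm0 hw0 (by norm_num) hJ2 h1 (by norm_num) (by norm_num) (by norm_num)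
    refine f8_core hm0 hm (by norm_num) (by norm_num)
      (by rcases hL with rfl | rfl | rfl | rfl | rfl | rfl | rfl <;> norm_num)
      (by rcases hL with rfl | rfl | rfl | rfl | rfl | rfl | rfl <;> norm_num)
      hz1 hw1 hx1 hy1 hp hr hZ11 hW11 hV1 hV2 hzK hwL hp0 hr0 hS1 hS2 h1 h2 hx2 hy2 hs1 hs2 ?_
    exact f8_v5 hcase
  · have h1 : z ≤ 2 * m :=
      f8_it (U := 2) hm hm0 hz0 (by norm_num) hJ1 hw2 (by norm_num) (by norm_num) (by norm_num)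
    have h2 : w ≤ (139 / 125) * m :=
      f8_it (U := 2) hm hm0 hw0 (by norm_num) hJ2 h1 (by norm_num) (by norm_num) (by norm_num)
    refine f8_core hm0 hm (by norm_num) (by norm_num)
      (by rcases hL with rfl | rfl | rfl | rfl | rfl | rfl | rfl <;> norm_num)
      (by rcases hL with rfl | rfl | rfl | rfl | rfl | rfl | rfl <;> norm_num)
      hz1 hw1 hx1 hy1 hp hr hZ11 hW11 hV1 hV2 hzK hwL hp0 hr0 hS1 hS2 h1 h2 hx2 hy2 hs1 hs2 ?_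
    exact f8_v6 hcase
  · norm_num at hJ2
    linarith

theorem tN_final8 : N_final 8 := by
  intro m k l K L aj bj zj wj ai bi zi wi p r Z10 Z01 Z11 W10 W01 W11 hF hZ10 hZ01 hZ11 hW10 hW01
    hW11 hV1 hV2 hz hw hx hy hp hr hS1 hS2
  obtain ⟨hm, hm0, hk, hl, hkl, hK, hL, hKL, haj0, hbj0, hai0, hbi0, haj2, hbj2, hai2, hbi2, haj,
    hbj, hai, hbi, hJ1, hJ2, hJ3, hI1, hI2, hp', hr'⟩ := hF
  have hqb : (qb 8 : ℝ) = 20 := by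
    have h : qb 8 = 20 := rfl
    rw [h]
    norm_num
  rw [hqb] at hm hS1 hS2
  have h8 : ((8 : ℕ) : ℝ) = 8 := by norm_num
  rw [h8] at hJ3 hV1 hV2
  have hk' : (k : ℝ) ≤ 8 - l := by
    have h : (k : ℝ) + l ≤ 8 := by exact_mod_cast hkl
    linarith
  have hK' : (K : ℝ) ≤ 8 - L := by
    have h : (K : ℝ) + L ≤ 8 := by exact_mod_cast hKL
    linarith
  have hlr : (l : ℝ) = 1 ∨ (l : ℝ) = 2 ∨ (l : ℝ) = 3 ∨ (l : ℝ) = 4 ∨ (l : ℝ) = 5 ∨ (l : ℝ) = 6 ∨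
      (l : ℝ) = 7 := by
    have h7 : l ≤ 7 := by omega
    interval_cases l <;> norm_num
  have hLr : (L : ℝ) = 1 ∨ (L : ℝ) = 2 ∨ (L : ℝ) = 3 ∨ (L : ℝ) = 4 ∨ (L : ℝ) = 5 ∨ (L : ℝ) = 6 ∨
      (L : ℝ) = 7 := by
    have h7 : L ≤ 7 := by omega
    interval_cases L <;> norm_num
  have hk0 : (0 : ℝ) ≤ k := Nat.cast_nonneg k
  have hK0 : (0 : ℝ) ≤ K := Nat.cast_nonneg K
  have hl1 : (1 : ℝ) ≤ l := by exact_mod_cast hl
  have hL1 : (1 : ℝ) ≤ L := by exact_mod_cast hL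
  have hk1 : (1 : ℝ) ≤ k := by exact_mod_cast hk
  have hK1 : (1 : ℝ) ≤ K := by exact_mod_cast hK
  have hzj : 0 < zj := f8_pos haj0 hk0 haj
  have hwj : 0 < wj := f8_pos hbj0 (by linarith) hbj
  have hzi : 0 < zi := f8_pos hai0 hK0 hai
  have hwi : 0 < wi := f8_pos hbi0 (by linarith) hbi
  have haj' : aj ≤ (8 - l) * zj := haj.trans (mul_le_mul_of_nonneg_right hk' hzj.le)
  have hai' : ai ≤ (8 - L) * zi := hai.trans (mul_le_mul_of_nonneg_right hK' hzi.le)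
  have hzw := mul_pos hzj hwj
  have hz' : zj ≤ Z10 + (8 - L) * Z11 :=
    hz.trans (by linarith [mul_le_mul_of_nonneg_right hK' hZ11])
  have hp0 : 1 - (8 - l) * zj - (8 - L) * Z01 ≤ p := by
    have h := mul_le_mul_of_nonneg_right hK' hZ01
    linarith
  have hr0 : 1 - l * wj - L * W01 ≤ r := by linarith
  have hmz : m < zj := by
    have h1 : wj * (1 - aj) ≤ m := by linarith
    have h2 : bj * (1 - aj) ≤ (l * wj) * (1 - aj) :=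
      mul_le_mul_of_nonneg_right hbj (by linarith)
    have h3 : (l : ℝ) * (wj * (1 - aj)) ≤ l * m := mul_le_mul_of_nonneg_left h1 (by linarith)
    have h4 : (8 - (l : ℝ)) * m < (8 - l) * zj := by linarith
    exact lt_of_mul_lt_mul_left h4 (by linarith)
  have hmw : m < wj := by
    have h1 : zj * (1 - bj) ≤ m := by linarith
    have h2 : aj * (1 - bj) ≤ ((8 - l) * zj) * (1 - bj) :=
      mul_le_mul_of_nonneg_right haj' (by linarith)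
    have h3 : (8 - (l : ℝ)) * (zj * (1 - bj)) ≤ (8 - l) * m :=
      mul_le_mul_of_nonneg_left h1 (by linarith)
    have h4 : (l : ℝ) * m < l * wj := by linarith
    exact lt_of_mul_lt_mul_left h4 (by linarith)
  have hz2 : zj ≤ 2 * m := by
    have h := mul_le_mul_of_nonneg_left (by linarith : 1 / 2 ≤ 1 - bj + wj) hzj.le
    linarith
  have hw2 : wj ≤ 2 * m := by
    have h := mul_le_mul_of_nonneg_left (by linarith : 1 / 2 ≤ 1 - aj + zj) hwj.le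
    linarith
  have hzi2 : zi ≤ 2 * m := by
    have h := mul_le_mul_of_nonneg_left (by linarith : 1 / 2 ≤ 1 - bi) hzi.le
    linarith
  have hwi2 : wi ≤ 2 * m := by
    have h := mul_le_mul_of_nonneg_left (by linarith : 1 / 2 ≤ 1 - ai) hwi.le
    linarith
  have hJ1' : zj * (1 - (l - 1) * wj) ≤ m := by
    have h := mul_le_mul_of_nonneg_left (by linarith : 1 - (l - 1) * wj ≤ 1 - bj + wj) hzj.le
    linarith
  have hJ2' : wj * (1 - (7 - l) * zj) ≤ m := by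
    have h := mul_le_mul_of_nonneg_left (by linarith : 1 - (7 - l) * zj ≤ 1 - aj + zj) hwj.le
    linarith
  have hI1' : zi * (1 - L * wi) ≤ m := by
    have h := mul_le_mul_of_nonneg_left (by linarith : 1 - L * wi ≤ 1 - bi) hzi.le
    linarith
  have hI2' : wi * (1 - (8 - L) * zi) ≤ m := by
    have h := mul_le_mul_of_nonneg_left (by linarith : 1 - (8 - L) * zi ≤ 1 - ai) hwi.le
    linarith
  exact f8_all (W10 := W10) (Z10 := Z10) hm0 hm hlr hLr hmz hmw hZ01 hW01 hzi.le hwi.le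
    (by linarith) (by linarith) hZ11 hW11 (by linarith) (by linarith) hz' hw hp0 hr0 hS1 hS2
    hz2 hw2 hzi2 hwi2 hx hy hJ1' hJ2' hI1' hI2'

end R745CD
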